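import Pool.Agent.Run7.h242.SC.Iface

/-!
# Project SC, piece NRB: integration over the translations
-/

set_option autoImplicit false

namespace Run7.h313.SC

open Run7.h242.SC
open MeasureTheory Set Filter Topology Metric
open scoped ContDiff ENNReal NNReal

lemma cl_nonpos {s : ℝ} (h : s ≤ 0) : cl s = 0 := by
  unfold cl
  rw [min_eq_left (h.trans zero_le_one), max_eq_left h]

lemma cl_mid {s : ℝ} (h : 0 ≤ s) (h1 : s ≤ 1) : cl s = s := by
  unfold cl
  rw [min_eq_left h1, max_eq_right h]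

lemma cl_ge {s : ℝ} (h : 1 ≤ s) : cl s = 1 := by
  unfold cl
  rw [min_eq_right h, max_eq_right zero_le_one]

lemma loopPt_add {m : ℕ} (τ : E (m + 3)) (t : ℝ) : loopPt τ t = loopPt 0 t + τ := by
  ext i
  simp only [loopPt, PiLp.add_apply, PiLp.zero_apply]
  split_ifs with h0 h2 h1
  · subst h0; ring
  · subst h2; ring
  · subst h1; ring
  · ring

/-- One step of the discretised loop is a coordinate segment. -/
lemma step {m N l : ℕ} (hN : 0 < N) (hl : l < 4 * N) :
    ∃ j : Fin (m + 3), (j = 0 ∨ j = 2) ∧ ∃ σ : ℝ, |σ| ≤ 1 / (2 * N) ∧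
      ∀ (τ : E (m + 3)) (θ : ℝ), 0 ≤ θ → θ ≤ 1 →
        loopPt τ (((l : ℝ) + θ) / (4 * N)) = loopPt τ ((l : ℝ) / (4 * N)) + (θ * σ) • ee j := by
  have hN' : (0 : ℝ) < N := by exact_mod_cast hN
  have hdiv : l / N < 4 := (Nat.div_lt_iff_lt_mul hN).2 hl
  obtain ⟨a, ha⟩ : ∃ a, a = l / N := ⟨_, rfl⟩
  have ha4 : a < 4 := by rw [ha]; exact hdiv
  have hb1 : a * N ≤ l := by rw [ha]; exact Nat.div_mul_le_self l N
  have hb2 : l + 1 ≤ (a + 1) * N := by
    have e := Nat.div_add_mod l N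
    have e2 := Nat.mod_lt l hN
    rw [← ha] at e
    have e3 : (a + 1) * N = N * a + N := by ring
    omega
  have hb1' : (a : ℝ) * N ≤ l := by exact_mod_cast hb1
  have hb2' : (l : ℝ) + 1 ≤ (a + 1) * N := by exact_mod_cast hb2
  -- the bounds for the parameter
  have hy : ∀ θ : ℝ, 0 ≤ θ → θ ≤ 1 → (a : ℝ) ≤ 4 * ((l + θ) / (4 * N)) ∧
      4 * ((l + θ) / (4 * N)) ≤ a + 1 := by
    intro θ h0 h1
    have e : 4 * (((l : ℝ) + θ) / (4 * N)) = (l + θ) / N := by field_simp
    rw [e, le_div_iff₀ hN', div_le_iff₀ hN']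
    constructor <;> linarith
  have hdiff : ∀ θ : ℝ, 4 * (((l : ℝ) + θ) / (4 * N)) = 4 * ((l : ℝ) / (4 * N)) + θ / N := by
    intro θ; field_simp
  have hz : ((l : ℝ) + 0) / (4 * N) = (l : ℝ) / (4 * N) := by rw [add_zero]
  have h0' := hy 0 le_rfl zero_le_one
  rw [hz] at h0'
  have key : ∀ (j : Fin (m + 3)) (σ : ℝ), (j = 0 ∨ j = 2) → 
      (∀ θ : ℝ, 0 ≤ θ → θ ≤ 1 →
        (rp (-3 / 128) (3 / 128) (-1 / 4) (1 / 4) (((l : ℝ) + θ) / (4 * N))).re =
          (rp (-3 / 128) (3 / 128) (-1 / 4) (1 / 4) ((l : ℝ) / (4 * N))).re +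
            (if j = 0 then θ * σ else 0) ∧
        (rp (-3 / 128) (3 / 128) (-1 / 4) (1 / 4) (((l : ℝ) + θ) / (4 * N))).im =
          (rp (-3 / 128) (3 / 128) (-1 / 4) (1 / 4) ((l : ℝ) / (4 * N))).im +
            (if j = 2 then θ * σ else 0)) →
      ∀ (τ : E (m + 3)) (θ : ℝ), 0 ≤ θ → θ ≤ 1 →
        loopPt τ (((l : ℝ) + θ) / (4 * N)) = loopPt τ ((l : ℝ) / (4 * N)) + (θ * σ) • ee j := by
    intro j σ hj hrp τ θ h0 h1
    obtain ⟨e1, e2⟩ := hrp θ h0 h1
    ext i
    simp only [loopPt, PiLp.add_apply, PiLp.smul_apply, ee, smul_eq_mul,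
      PiLp.single_apply]
    rcases fin_cases3 i with rfl | rfl | rfl | hi
    · simp only [if_true]
      rw [e1]
      rcases hj with rfl | rfl
      · simp; ring
      · simp [ne20, ne20.symm]
    · rcases hj with rfl | rfl
      · simp [ne10, ne21.symm]
      · simp [ne10, ne21.symm]
    · simp only [ne20, if_true, if_false]
      rw [e2]
      rcases hj with rfl | rfl
      · simp [ne20, ne20.symm]
      · simp; ring
    · obtain ⟨i0, i1, i2⟩ := ne_of_three_le hi
      rcases hj with rfl | rfl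
      · simp [i0, i1, i2]
      · simp [i0, i1, i2]
  have hN1 : (0 : ℝ) < 1 / N := by positivity
  have habs1 : |3 / (64 * (N : ℝ))| ≤ 1 / (2 * N) := by
    rw [abs_of_pos (by positivity), div_le_div_iff₀ (by positivity) (by positivity)]
    nlinarith
  have habs2 : |1 / (2 * (N : ℝ))| ≤ 1 / (2 * N) := by
    rw [abs_of_pos (by positivity)]
  interval_cases a
  · refine ⟨0, Or.inl rfl, 3 / (64 * N), habs1, key 0 _ (Or.inl rfl) ?_⟩
    intro θ h0 h1
    have hh := hy θ h0 h1
    simp only [rp]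
    rw [cl_mid (s := 4 * (((l : ℝ) + θ) / (4 * N))) (by push_cast at hh; linarith [hh.1])
      (by push_cast at hh; linarith [hh.2]),
      cl_mid (s := 4 * ((l : ℝ) / (4 * N))) (by push_cast at h0'; linarith [h0'.1])
      (by push_cast at h0'; linarith [h0'.2])]
    rw [cl_nonpos (s := 4 * (((l : ℝ) + θ) / (4 * N)) - 2) (by push_cast at hh; linarith [hh.2]),
      cl_nonpos (s := 4 * (((l : ℝ) + θ) / (4 * N)) - 1) (by push_cast at hh; linarith [hh.2]),
      cl_nonpos (s := 4 * (((l : ℝ) + θ) / (4 * N)) - 3) (by push_cast at hh; linarith [hh.2]),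
      cl_nonpos (s := 4 * ((l : ℝ) / (4 * N)) - 2) (by push_cast at h0'; linarith [h0'.2]),
      cl_nonpos (s := 4 * ((l : ℝ) / (4 * N)) - 1) (by push_cast at h0'; linarith [h0'.2]),
      cl_nonpos (s := 4 * ((l : ℝ) / (4 * N)) - 3) (by push_cast at h0'; linarith [h0'.2]),
      hdiff θ]
    refine ⟨?_, ?_⟩
    · simp only [if_true]; field_simp; ring
    · simp [ne20.symm]
  · refine ⟨2, Or.inr rfl, 1 / (2 * N), habs2, key 2 _ (Or.inr rfl) ?_⟩
    intro θ h0 h1
    have hh := hy θ h0 h1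
    simp only [rp]
    rw [cl_ge (s := 4 * (((l : ℝ) + θ) / (4 * N))) (by push_cast at hh; linarith [hh.1]),
      cl_ge (s := 4 * ((l : ℝ) / (4 * N))) (by push_cast at h0'; linarith [h0'.1])]
    rw [cl_nonpos (s := 4 * (((l : ℝ) + θ) / (4 * N)) - 2) (by push_cast at hh; linarith [hh.2]),
      cl_mid (s := 4 * (((l : ℝ) + θ) / (4 * N)) - 1) (by push_cast at hh; linarith [hh.1])
        (by push_cast at hh; linarith [hh.2]),
      cl_nonpos (s := 4 * (((l : ℝ) + θ) / (4 * N)) - 3) (by push_cast at hh; linarith [hh.2]),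
      cl_nonpos (s := 4 * ((l : ℝ) / (4 * N)) - 2) (by push_cast at h0'; linarith [h0'.2]),
      cl_mid (s := 4 * ((l : ℝ) / (4 * N)) - 1) (by push_cast at h0'; linarith [h0'.1])
        (by push_cast at h0'; linarith [h0'.2]),
      cl_nonpos (s := 4 * ((l : ℝ) / (4 * N)) - 3) (by push_cast at h0'; linarith [h0'.2]),
      hdiff θ]
    refine ⟨?_, ?_⟩
    · simp [ne20]
    · simp only [if_true]; field_simp; ring
  · refine ⟨0, Or.inl rfl, -(3 / (64 * N)), by rw [abs_neg]; exact habs1,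
      key 0 _ (Or.inl rfl) ?_⟩
    intro θ h0 h1
    have hh := hy θ h0 h1
    simp only [rp]
    rw [cl_ge (s := 4 * (((l : ℝ) + θ) / (4 * N))) (by push_cast at hh; linarith [hh.1]),
      cl_ge (s := 4 * ((l : ℝ) / (4 * N))) (by push_cast at h0'; linarith [h0'.1])]
    rw [cl_mid (s := 4 * (((l : ℝ) + θ) / (4 * N)) - 2) (by push_cast at hh; linarith [hh.1])
        (by push_cast at hh; linarith [hh.2]),
      cl_ge (s := 4 * (((l : ℝ) + θ) / (4 * N)) - 1) (by push_cast at hh; linarith [hh.1]),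
      cl_nonpos (s := 4 * (((l : ℝ) + θ) / (4 * N)) - 3) (by push_cast at hh; linarith [hh.2]),
      cl_mid (s := 4 * ((l : ℝ) / (4 * N)) - 2) (by push_cast at h0'; linarith [h0'.1])
        (by push_cast at h0'; linarith [h0'.2]),
      cl_ge (s := 4 * ((l : ℝ) / (4 * N)) - 1) (by push_cast at h0'; linarith [h0'.1]),
      cl_nonpos (s := 4 * ((l : ℝ) / (4 * N)) - 3) (by push_cast at h0'; linarith [h0'.2]),
      hdiff θ]
    refine ⟨?_, ?_⟩
    · simp only [if_true]; field_simp; ring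
    · simp [ne20.symm]
  · refine ⟨2, Or.inr rfl, -(1 / (2 * N)), by rw [abs_neg]; exact habs2,
      key 2 _ (Or.inr rfl) ?_⟩
    intro θ h0 h1
    have hh := hy θ h0 h1
    simp only [rp]
    rw [cl_ge (s := 4 * (((l : ℝ) + θ) / (4 * N))) (by push_cast at hh; linarith [hh.1]),
      cl_ge (s := 4 * ((l : ℝ) / (4 * N))) (by push_cast at h0'; linarith [h0'.1])]
    rw [cl_ge (s := 4 * (((l : ℝ) + θ) / (4 * N)) - 2) (by push_cast at hh; linarith [hh.1]),
      cl_ge (s := 4 * (((l : ℝ) + θ) / (4 * N)) - 1) (by push_cast at hh; linarith [hh.1]),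
      cl_mid (s := 4 * (((l : ℝ) + θ) / (4 * N)) - 3) (by push_cast at hh; linarith [hh.1])
        (by push_cast at hh; linarith [hh.2]),
      cl_ge (s := 4 * ((l : ℝ) / (4 * N)) - 2) (by push_cast at h0'; linarith [h0'.1]),
      cl_ge (s := 4 * ((l : ℝ) / (4 * N)) - 1) (by push_cast at h0'; linarith [h0'.1]),
      cl_mid (s := 4 * ((l : ℝ) / (4 * N)) - 3) (by push_cast at h0'; linarith [h0'.1])
        (by push_cast at h0'; linarith [h0'.2]),
      hdiff θ]
    refine ⟨?_, ?_⟩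
    · simp [ne20]
    · simp only [if_true]; field_simp; ring

/-- The box of translations. -/
def Bx (m : ℕ) : Set (E (m + 3)) := {τ | ∀ i, |τ i| ≤ 1 / 512}

lemma isClosed_Bx (m : ℕ) : IsClosed (Bx m) := by
  have : Bx m = ⋂ i, {τ : E (m + 3) | |τ i| ≤ 1 / 512} := by
    ext τ; simp [Bx]
  rw [this]
  refine isClosed_iInter fun i => isClosed_le ?_ continuous_const
  fun_prop

lemma isCompact_Bx (m : ℕ) : IsCompact (Bx m) := by
  refine Metric.isCompact_of_isClosed_isBounded (isClosed_Bx m) ?_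
  rw [isBounded_iff_forall_norm_le]
  refine ⟨Real.sqrt (∑ _i : Fin (m + 3), (1 / 512 : ℝ) ^ 2), fun τ hτ => ?_⟩
  rw [EuclideanSpace.norm_eq]
  refine Real.sqrt_le_sqrt (Finset.sum_le_sum fun i _ => ?_)
  rw [Real.norm_eq_abs]
  exact pow_le_pow_left₀ (abs_nonneg _) (hτ i) 2

/-- One step: the translated increments are controlled by the gradient. -/
lemma one_step {m : ℕ} (hTRA : S_TRA) (hopen : IsOpen (Om m)) (hT : IsOpen (T0p m))
    (F : E (m + 3) → E (m + 3)) (G : E (m + 3) → Fin (m + 3) → Fin (m + 3) → ℝ)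
    (hF : ContinuousOn F (Om m)) (hw : WeakGrad (Om m) F G)
    (hG : ∀ i j, IntegrableOn (fun x => G x i j) (Om m)) (i j : Fin (m + 3))
    (u : E (m + 3)) (h : ℝ) (h0 : 0 ≤ h)
    (hseg : ∀ τ ∈ Bx m, ∀ s ∈ Icc (0 : ℝ) h, u + τ + s • ee j ∈ T0p m) :
    ∫ τ in Bx m, |F (u + τ + h • ee j) i - F (u + τ) i| ≤ h * ∫ x in T0p m, |G x i j| := by
  have hTO : T0p m ⊆ Om m := fun _ hx => hx.1
  have hmB : MeasurableSet (Bx m) := (isClosed_Bx m).measurableSet
  set A : Set (E (m + 3)) := (fun x => x - u) ⁻¹' Bx m with hA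
  have hmA : MeasurableSet A := hmB.preimage (measurable_id.sub_const u)
  have hpre : (fun τ => u + τ) ⁻¹' A = Bx m := by
    ext τ; simp [hA]
  have hAseg : ∀ x ∈ A, ∀ t ∈ Icc (0 : ℝ) h, x + t • ee j ∈ T0p m := by
    intro x hx t ht
    have := hseg (x - u) hx t ht
    simpa using this
  have h1 := hTRA (m + 3) (Om m) j (fun x => F x i) (fun x => G x i j) hopen
    ((by fun_prop : Continuous fun y : E (m + 3) => y i).comp_continuousOn hF) (hG i j)
    (hw i j) h h0 A hmA (fun x hx t ht => hTO (hAseg x hx t ht))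
  have hGT : IntegrableOn (fun x => G x i j) (T0p m) := (hG i j).mono_set hTO
  have h2 : ∀ t ∈ Icc (0 : ℝ) h, ∫⁻ x in A, ENNReal.ofReal |G (x + t • ee j) i j| ≤
      ∫⁻ x in T0p m, ENNReal.ofReal |G x i j| := by
    intro t ht
    calc ∫⁻ x in A, ENNReal.ofReal |G (x + t • ee j) i j|
        ≤ ∫⁻ x in (fun x => x + t • ee j) ⁻¹' T0p m, ENNReal.ofReal |G (x + t • ee j) i j| :=
          lintegral_mono_set (fun x hx => hAseg x hx t ht)
      _ = ∫⁻ x in T0p m, ENNReal.ofReal |G x i j| :=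
          (measurePreserving_add_right volume (t • ee j)).setLIntegral_comp_preimage_emb
            (MeasurableEquiv.addRight (t • ee j : E (m + 3))).measurableEmbedding
            (fun x => ENNReal.ofReal |G x i j|) (T0p m)
  have h3 : ∫⁻ t in Icc (0 : ℝ) h, ∫⁻ x in A, ENNReal.ofReal |G (x + t • ee j) i j| ≤
      ENNReal.ofReal h * ∫⁻ x in T0p m, ENNReal.ofReal |G x i j| := by
    calc ∫⁻ t in Icc (0 : ℝ) h, ∫⁻ x in A, ENNReal.ofReal |G (x + t • ee j) i j|
        ≤ ∫⁻ _t in Icc (0 : ℝ) h, ∫⁻ x in T0p m, ENNReal.ofReal |G x i j| :=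
          setLIntegral_mono' measurableSet_Icc h2
      _ = ENNReal.ofReal h * ∫⁻ x in T0p m, ENNReal.ofReal |G x i j| := by
          rw [setLIntegral_const, Real.volume_Icc, sub_zero, mul_comm]
  have h4 : ∫⁻ τ in Bx m, ENNReal.ofReal |F (u + τ + h • ee j) i - F (u + τ) i| =
      ∫⁻ x in A, ENNReal.ofReal |F (x + h • ee j) i - F x i| := by
    have := (measurePreserving_add_left volume u).setLIntegral_comp_preimage_emb
      (MeasurableEquiv.addLeft (u : E (m + 3))).measurableEmbedding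
      (fun x => ENNReal.ofReal |F (x + h • ee j) i - F x i|) A
    rw [hpre] at this
    exact this
  have h5 : ∫⁻ x in T0p m, ENNReal.ofReal |G x i j| = ENNReal.ofReal (∫ x in T0p m, |G x i j|) :=
    (ofReal_integral_eq_lintegral_ofReal hGT.abs (ae_of_all _ fun x => abs_nonneg _)).symm
  have h6 : ∫⁻ τ in Bx m, ENNReal.ofReal |F (u + τ + h • ee j) i - F (u + τ) i| ≤
      ENNReal.ofReal (h * ∫ x in T0p m, |G x i j|) := by
    rw [h4, ENNReal.ofReal_mul h0, ← h5]
    exact h1.trans h3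
  have hnn : 0 ≤ h * ∫ x in T0p m, |G x i j| :=
    mul_nonneg h0 (integral_nonneg fun x => abs_nonneg _)
  have h7 : ∫ τ in Bx m, |F (u + τ + h • ee j) i - F (u + τ) i| =
      (∫⁻ τ in Bx m, ENNReal.ofReal |F (u + τ + h • ee j) i - F (u + τ) i|).toReal := by
    refine integral_eq_lintegral_of_nonneg_ae (ae_of_all _ fun x => abs_nonneg _) ?_
    refine ContinuousOn.aestronglyMeasurable ?_ hmB
    have c1 : ContinuousOn (fun τ => F (u + τ + h • ee j)) (Bx m) :=
      hF.comp (by fun_prop) (fun τ hτ => hTO (hseg τ hτ h ⟨h0, le_rfl⟩))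
    have c2 : ContinuousOn (fun τ => F (u + τ)) (Bx m) :=
      hF.comp (by fun_prop) (fun τ hτ => by
        have := hseg τ hτ 0 ⟨le_rfl, h0⟩
        rw [zero_smul, add_zero] at this
        exact hTO this)
    have d1 : ContinuousOn (fun τ => F (u + τ + h • ee j) i) (Bx m) :=
      (by fun_prop : Continuous fun y : E (m + 3) => y i).comp_continuousOn c1
    have d2 : ContinuousOn (fun τ => F (u + τ) i) (Bx m) :=
      (by fun_prop : Continuous fun y : E (m + 3) => y i).comp_continuousOn c2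
    exact (d1.sub d2).abs
  rw [h7]
  exact ENNReal.toReal_le_of_le_ofReal hnn h6

theorem t_NRB : S_TRA → S_LOOP → S_TOP → S_NRB := by
  intro hTRA hLOOP hTOP m N F G hN hF hw hG
  obtain ⟨hopen, -, -, -⟩ := hTOP m
  have hTO : T0p m ⊆ Om m := fun _ hx => hx.1
  have hT : IsOpen (T0p m) := by
    have h2 : IsOpen {x : E (m + 3) | 0 < x 2} := isOpen_lt continuous_const (by fun_prop)
    have h0 : IsOpen {x : E (m + 3) | x 0 < -1 / 2} := isOpen_lt (by fun_prop) continuous_const
    have e : T0p m = Om m ∩ ({x | 0 < x 2} ∩ {x | x 0 < -1 / 2}) := by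
      ext x; rfl
    rw [e]
    exact hopen.inter (h2.inter h0)
  have hN' : (0 : ℝ) < N := by exact_mod_cast hN
  have hloop := (hLOOP m).2
  have htI : ∀ l : ℕ, l < 4 * N → ∀ θ : ℝ, 0 ≤ θ → θ ≤ 1 →
      ((l : ℝ) + θ) / (4 * N) ∈ Icc (0 : ℝ) 1 := by
    intro l hl θ h0 h1
    have hl' : (l : ℝ) + 1 ≤ 4 * N := by exact_mod_cast hl
    refine ⟨by positivity, ?_⟩
    rw [div_le_one (by positivity)]
    linarith
  have hmem : ∀ l : ℕ, l < 4 * N → ∀ θ : ℝ, 0 ≤ θ → θ ≤ 1 → ∀ τ ∈ Bx m,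
      loopPt τ (((l : ℝ) + θ) / (4 * N)) ∈ T0p m := by
    intro l hl θ h0 h1 τ hτ
    exact (hloop τ hτ).1 _ (htI l hl θ h0 h1)
  set S : Fin (m + 3) → ℝ := fun i => (∫ x in T0p m, |G x i 0|) + ∫ x in T0p m, |G x i 2| with hS
  have hnn : ∀ i j, 0 ≤ ∫ x in T0p m, |G x i j| := fun i j => integral_nonneg fun x => abs_nonneg _
  -- the bound for one step
  have hone : ∀ l ∈ Finset.range (4 * N), ∀ i : Fin (m + 3),
      ∫ τ in Bx m, |F (loopPt τ (((l : ℝ) + 1) / (4 * N))) i - F (loopPt τ ((l : ℝ) / (4 * N))) i| ≤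
        1 / (2 * N) * S i := by
    intro l hl i
    rw [Finset.mem_range] at hl
    obtain ⟨j, hj, σ, hσ, hst⟩ := step (m := m) hN hl
    have hSj : ∫ x in T0p m, |G x i j| ≤ S i := by
      rcases hj with rfl | rfl
      · exact le_add_of_nonneg_right (hnn i 2)
      · exact le_add_of_nonneg_left (hnn i 0)
    have hfin : |σ| * ∫ x in T0p m, |G x i j| ≤ 1 / (2 * N) * S i :=
      mul_le_mul hσ hSj (hnn i j) (by positivity)
    rcases le_total 0 σ with hp | hp
    · rw [abs_of_nonneg hp] at hfin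
      have := one_step hTRA hopen hT F G hF hw hG i j (loopPt 0 ((l : ℝ) / (4 * N))) σ hp ?_
      · refine le_trans (le_of_eq ?_) (this.trans hfin)
        refine setIntegral_congr_fun (isClosed_Bx m).measurableSet fun τ _ => ?_
        have e1 := hst τ 1 zero_le_one le_rfl
        rw [one_mul] at e1
        simp only
        rw [e1, loopPt_add τ ((l : ℝ) / (4 * N))]
      · intro τ hτ s hs
        rw [← loopPt_add]
        rcases eq_or_lt_of_le hp with h0 | h0
        · have : s = 0 := le_antisymm (h0 ▸ hs.2) hs.1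
          rw [this, zero_smul, add_zero]
          have := hmem l hl 0 le_rfl zero_le_one τ hτ
          rwa [add_zero] at this
        · have e := hst τ (s / σ) (div_nonneg hs.1 hp) (by rw [div_le_one h0]; exact hs.2)
          rw [div_mul_cancel₀ _ h0.ne'] at e
          rw [← e]
          exact hmem l hl _ (div_nonneg hs.1 hp) (by rw [div_le_one h0]; exact hs.2) τ hτ
    · rw [abs_of_nonpos hp] at hfin
      have hp' : 0 ≤ -σ := by linarith
      have hrev : ∀ (τ : E (m + 3)) (θ : ℝ), 0 ≤ θ → θ ≤ 1 →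
          loopPt τ (((l : ℝ) + (1 - θ)) / (4 * N)) =
            loopPt τ (((l : ℝ) + 1) / (4 * N)) + (θ * (-σ)) • ee j := by
        intro τ θ h0 h1
        rw [hst τ (1 - θ) (by linarith) (by linarith), hst τ 1 zero_le_one le_rfl,
          add_assoc, ← add_smul]
        congr 2
        ring
      have := one_step hTRA hopen hT F G hF hw hG i j (loopPt 0 (((l : ℝ) + 1) / (4 * N))) (-σ)
        hp' ?_
      · refine le_trans (le_of_eq ?_) (this.trans hfin)
        refine setIntegral_congr_fun (isClosed_Bx m).measurableSet fun τ _ => ?_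
        have e1 := hrev τ 1 zero_le_one le_rfl
        rw [one_mul, sub_self, add_zero] at e1
        simp only
        rw [e1, loopPt_add τ (((l : ℝ) + 1) / (4 * N)), abs_sub_comm]
      · intro τ hτ s hs
        rw [← loopPt_add]
        rcases eq_or_lt_of_le hp' with h0 | h0
        · have : s = 0 := le_antisymm (h0 ▸ hs.2) hs.1
          rw [this, zero_smul, add_zero]
          exact hmem l hl 1 zero_le_one le_rfl τ hτ
        · have e := hrev τ (s / (-σ)) (div_nonneg hs.1 hp') (by rw [div_le_one h0]; exact hs.2)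
          rw [div_mul_cancel₀ _ h0.ne'] at e
          rw [← e]
          have b1 : s / (-σ) ≤ 1 := by rw [div_le_one h0]; exact hs.2
          have b0 : 0 ≤ s / (-σ) := div_nonneg hs.1 hp'
          exact hmem l hl _ (by linarith) (by linarith) τ hτ
  -- integrability
  have hcl : ∀ t ∈ Icc (0 : ℝ) 1, ∀ i, ContinuousOn (fun τ => F (loopPt τ t) i) (Bx m) := by
    intro t ht i
    refine (by fun_prop : Continuous fun y : E (m + 3) => y i).comp_continuousOn ?_
    refine hF.comp ?_ (fun τ hτ => hTO ((hloop τ hτ).1 t ht))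
    have : (fun τ : E (m + 3) => loopPt τ t) = fun τ => loopPt 0 t + τ := by
      funext τ; exact loopPt_add τ t
    rw [this]
    fun_prop
  have hint : ∀ l ∈ Finset.range (4 * N), ∀ i : Fin (m + 3), IntegrableOn (fun τ =>
      |F (loopPt τ (((l : ℝ) + 1) / (4 * N))) i - F (loopPt τ ((l : ℝ) / (4 * N))) i|) (Bx m) := by
    intro l hl i
    rw [Finset.mem_range] at hl
    refine ContinuousOn.integrableOn_compact (isCompact_Bx m) ?_
    have c1 := hcl _ (htI l hl 1 zero_le_one le_rfl) i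
    have c2 := hcl _ (htI l hl 0 le_rfl zero_le_one) i
    rw [add_zero] at c2
    exact (c1.sub c2).abs
  have hBx : {τ : E (m + 3) | ∀ i, |τ i| ≤ 1 / 512} = Bx m := rfl
  rw [hBx]
  rw [integral_finsetSum _ (fun l hl => integrable_finsetSum _ fun i _ => hint l hl i)]
  calc ∑ l ∈ Finset.range (4 * N), ∫ τ in Bx m, ∑ i : Fin (m + 3),
        |F (loopPt τ (((l : ℝ) + 1) / (4 * N))) i - F (loopPt τ ((l : ℝ) / (4 * N))) i|
      ≤ ∑ l ∈ Finset.range (4 * N), ∑ i : Fin (m + 3), 1 / (2 * N) * S i := by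
        refine Finset.sum_le_sum fun l hl => ?_
        rw [integral_finsetSum _ (fun i _ => hint l hl i)]
        exact Finset.sum_le_sum fun i _ => hone l hl i
    _ = 2 * ∑ i, S i := by
        rw [Finset.sum_const, Finset.card_range, ← Finset.mul_sum, nsmul_eq_mul]
        push_cast
        field_simp
        ring

end Run7.h313.SC
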