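import Pool.Agent.Run7.h242.SC.Iface

/-!
# Project SC, piece NST: the limit map is not in the strong closure
-/

set_option autoImplicit false

namespace Run7.h313.SC

open Run7.h242.SC
open MeasureTheory Set Filter Topology Metric
open scoped ContDiff ENNReal NNReal

lemma isOpen_T0p {m : ℕ} (h : IsOpen (Om m)) : IsOpen (T0p m) := by
  have h2 : IsOpen {x : E (m + 3) | 0 < x 2} :=
    isOpen_lt continuous_const (by fun_prop)
  have h0 : IsOpen {x : E (m + 3) | x 0 < -1 / 2} :=
    isOpen_lt (by fun_prop) continuous_const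
  have e : T0p m = Om m ∩ ({x | 0 < x 2} ∩ {x | x 0 < -1 / 2}) := by
    ext x; rfl
  rw [e]
  exact h.inter (h2.inter h0)

lemma T0p_sub {m : ℕ} : T0p m ⊆ Om m := fun _ hx => hx.1

/-- A weak gradient vanishes in the directions of independence. -/
lemma grad_zero {m : ℕ} (hopen : IsOpen (Om m)) (f : E (m + 3) → E (m + 3))
    (G : E (m + 3) → Fin (m + 3) → Fin (m + 3) → ℝ)
    (hf : ∀ x ∈ T0p m, f x 0 = 0 ∧ f x 1 = 0 ∧ f x 2 = 0 ∧
      ∀ i : Fin (m + 3), 3 ≤ (i : ℕ) → f x i = x i)
    (hw : WeakGrad (Om m) f G) (hG : ∀ i j, IntegrableOn (fun x => G x i j) (Om m))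
    (i j : Fin (m + 3)) (hj : j = 0 ∨ j = 2) :
    ∀ᵐ x, x ∈ T0p m → G x i j = 0 := by
  have hT := isOpen_T0p hopen
  refine hT.ae_eq_zero_of_integral_contDiff_smul_eq_zero
    ((hG i j).mono_set T0p_sub).locallyIntegrableOn ?_
  intro φ hφ hc hs
  have hs' : tsupport φ ⊆ Om m := hs.trans T0p_sub
  have h1 := hw i j φ hφ hc hs'
  -- the right-hand side
  have e1 : ∫ x in Om m, G x i j * φ x = ∫ x, φ x • G x i j := by
    rw [setIntegral_eq_integral_of_forall_compl_eq_zero]
    · simp only [smul_eq_mul, mul_comm]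
    · intro x hx
      rw [image_eq_zero_of_notMem_tsupport (fun h => hx (hs' h)), mul_zero]
  -- a smooth representative
  let g : E (m + 3) → ℝ := fun x => if 3 ≤ (i : ℕ) then x i else 0
  have hg : ∀ x ∈ T0p m, f x i = g x := by
    intro x hx
    obtain ⟨a0, a1, a2, a3⟩ := hf x hx
    by_cases h3 : 3 ≤ (i : ℕ)
    · simp only [g, h3, if_true]; exact a3 i h3
    · simp only [g, h3, if_false]
      rcases fin_cases3 i with rfl | rfl | rfl | hi
      · exact a0
      · exact a1
      · exact a2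
      · exact absurd hi h3
  have hgd : ContDiff ℝ ∞ g := by
    by_cases h3 : 3 ≤ (i : ℕ)
    · simp only [g, h3, if_true]; fun_prop
    · simp only [g, h3, if_false]; fun_prop
  have hij : 3 ≤ (i : ℕ) → i ≠ j := by
    intro h3 he
    obtain ⟨b0, b1, b2⟩ := ne_of_three_le h3
    rcases hj with rfl | rfl
    · exact b0 he
    · exact b2 he
  have hgj : ∀ x, fderiv ℝ g x (ee j) = 0 := by
    intro x
    by_cases h3 : 3 ≤ (i : ℕ)
    · have : g = fun x : E (m + 3) => EuclideanSpace.proj (𝕜 := ℝ) i x := by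
        funext x; simp [g, h3]
      rw [this, ContinuousLinearMap.fderiv]
      simp [ee, (hij h3)]
    · have : g = fun _ : E (m + 3) => (0 : ℝ) := by
        funext x; simp [g, h3]
      rw [this]; simp
  have e2 : ∫ x in Om m, f x i * fderiv ℝ φ x (ee j) = ∫ x, g x * fderiv ℝ φ x (ee j) := by
    have z : ∀ x, x ∉ T0p m → fderiv ℝ φ x (ee j) = 0 := by
      intro x hx
      have : x ∉ tsupport (fderiv ℝ φ) := fun h => hx (hs (tsupport_fderiv_subset ℝ h))
      rw [image_eq_zero_of_notMem_tsupport this]; rfl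
    have : ∀ x ∈ Om m, f x i * fderiv ℝ φ x (ee j) = g x * fderiv ℝ φ x (ee j) := by
      intro x _
      by_cases hx : x ∈ T0p m
      · rw [hg x hx]
      · rw [z x hx, mul_zero, mul_zero]
    rw [setIntegral_congr_fun hopen.measurableSet this,
      setIntegral_eq_integral_of_forall_compl_eq_zero]
    intro x hx
    rw [z x (fun h => hx (T0p_sub h)), mul_zero]
  have e3 : ∫ x, g x * fderiv ℝ φ x (ee j) = 0 := by
    have hφ1 : ContDiff ℝ 1 φ := hφ.of_le (by exact_mod_cast le_top)
    have cφ' : Continuous fun x => fderiv ℝ φ x (ee j) :=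
      (hφ1.continuous_fderiv one_ne_zero).clm_apply continuous_const
    rw [integral_mul_fderiv_eq_neg_fderiv_mul_of_integrable]
    · simp [hgj]
    · simp [hgj]
    · refine (hgd.continuous.mul cφ').integrable_of_hasCompactSupport ?_
      exact ((hc.fderiv_apply (𝕜 := ℝ) (ee j))).mul_left
    · exact (hgd.continuous.mul hφ.continuous).integrable_of_hasCompactSupport hc.mul_left
    · intro x _; exact (hgd.differentiable (by simp)) x
    · intro x _; exact (hφ1.differentiable (by simp)) x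
  rw [e1, e2, e3] at h1
  linarith

lemma cont_of_homeo {n : ℕ} {Ω Ω' : Set (E n)} {f : E n → E n} (e : Ω ≃ₜ Ω')
    (he : ∀ x : Ω, ((e x : Ω') : E n) = f x) : ContinuousOn f Ω := by
  rw [continuousOn_iff_continuous_domRestrict]
  have : Ω.domRestrict f = fun x => ((e x : Ω') : E n) := by
    funext x; exact (he x).symm
  rw [this]
  exact continuous_subtype_val.comp e.continuous

lemma maps_of_homeo {n : ℕ} {Ω Ω' : Set (E n)} {f : E n → E n} (e : Ω ≃ₜ Ω')
    (he : ∀ x : Ω, ((e x : Ω') : E n) = f x) : ∀ x ∈ Ω, f x ∈ Ω' := by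
  intro x hx
  rw [← he ⟨x, hx⟩]
  exact (e ⟨x, hx⟩).2

theorem t_NST : S_LEV → S_OSC → S_NRG → S_TOP → S_NST := by
  intro hLEV hOSC hNRG hTOP m f hf p hp1 hptop hmem
  obtain ⟨G, hW, -, fk, Gk, hk, hlim⟩ := hmem
  obtain ⟨hopen, -, hbdd, -⟩ := hTOP m
  obtain ⟨lev, hlev, hlip⟩ := hLEV
  obtain ⟨c, hc, hN⟩ := hNRG m
  have hfin : volume (Om m) < ⊤ := hbdd.measure_lt_top
  have : IsFiniteMeasure (volume.restrict (Om m)) := ⟨by simpa using hfin⟩
  have hint : ∀ {u : E (m + 3) → ℝ}, MemLp u p (volume.restrict (Om m)) →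
      IntegrableOn u (Om m) := fun h => h.integrable hp1
  have hG : ∀ i j, IntegrableOn (fun x => G x i j) (Om m) := fun i j => hint (hW.G_mem i j)
  have hGk : ∀ k i j, IntegrableOn (fun x => Gk k x i j) (Om m) :=
    fun k i j => hint ((hk k).2.G_mem i j)
  -- the lower bound
  have hlow : ∀ k, c ≤ ∑ i, ((∫ x in T0p m, |Gk k x i 0|) + ∫ x in T0p m, |Gk k x i 2|) := by
    intro k
    obtain ⟨⟨e, he⟩, hIk⟩ := hk k
    have hcF := cont_of_homeo e he
    have hmF := maps_of_homeo e he
    have hprc : ContinuousOn (fun x => pr (fk k x)) (Om m) :=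
      continuous_pr.comp_continuousOn hcF
    have hprm : ∀ x ∈ Om m, pr (fk k x) ∈ Om3' := fun x hx => (hmF x hx).2
    have hloc : ∀ x ∈ Om m, ∃ r : ℝ, 0 < r ∧ ∀ y ∈ ball x r ∩ Om m, ∀ z ∈ ball x r ∩ Om m,
        |lev (pr (fk k y)) - lev (pr (fk k z))| ≤ 4 * ‖fk k y - fk k z‖ := by
      intro x hx
      obtain ⟨r, hr, hrr⟩ := hlip _ (hprm x hx)
      obtain ⟨r', hr', hrr'⟩ := Metric.continuousWithinAt_iff.1 (hprc x hx) r hr
      refine ⟨r', hr', fun y hy z hz => ?_⟩
      have h1 := hrr _ ⟨hrr' hy.2 hy.1, hprm y hy.2⟩ _ ⟨hrr' hz.2 hz.1, hprm z hz.2⟩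
      exact h1.trans (mul_le_mul_of_nonneg_left (norm_pr_sub_le _ _) (by norm_num))
    have hcW : ContinuousOn (fun x => lev (pr (fk k x))) (Om m) := by
      intro x hx
      obtain ⟨r, hr, hrr⟩ := hloc x hx
      rw [Metric.continuousWithinAt_iff]
      intro ε hε
      obtain ⟨d, hd, hdd⟩ := Metric.continuousWithinAt_iff.1 (hcF x hx) (ε / 4) (by positivity)
      refine ⟨min r d, lt_min hr hd, fun y hy hyd => ?_⟩
      have h1 := hrr y ⟨lt_of_lt_of_le hyd (min_le_left _ _), hy⟩ x ⟨mem_ball_self hr, hx⟩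
      have h2 := hdd hy (lt_of_lt_of_le hyd (min_le_right _ _))
      rw [dist_eq_norm] at h2
      rw [Real.dist_eq]
      linarith
    exact hN (fk k) (Gk k) (fun x => lev (pr (fk k x))) hcF hcW hloc hIk.weak (hGk k)
      (fun τ hτ => hOSC m lev hlev e (fk k) he τ hτ)
  -- the upper bound
  have hzero : ∀ i j : Fin (m + 3), (j = 0 ∨ j = 2) →
      Tendsto (fun k => ∫ x in T0p m, |Gk k x i j|) atTop (𝓝 0) := by
    intro i j hj
    have hz := grad_zero hopen f G hf hW.weak hG i j hj
    have hlimij := hlim.2 i j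
    have hT := isOpen_T0p hopen
    set M : ℝ≥0∞ := (volume.restrict (Om m)) univ ^ (1 / (1 : ℝ≥0∞).toReal - 1 / p.toReal) with hM
    have hMtop : M ≠ ⊤ := by
      refine ENNReal.rpow_ne_top_of_nonneg ?_ (measure_ne_top _ _)
      have : 1 ≤ p.toReal := by
        have := ENNReal.toReal_mono hptop hp1
        simpa using this
      have : 1 / p.toReal ≤ 1 := by
        rw [div_le_one (by linarith)]; exact this
      simp only [ENNReal.toReal_one]
      linarith
    have hbound : ∀ k, ENNReal.ofReal (∫ x in T0p m, |Gk k x i j|) ≤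
        eLpNorm (fun x => Gk k x i j - G x i j) p (volume.restrict (Om m)) * M := by
      intro k
      have hsub : IntegrableOn (fun x => Gk k x i j - G x i j) (Om m) :=
        (hGk k i j).sub (hG i j)
      have a1 : ∫ x in T0p m, |Gk k x i j| = ∫ x in T0p m, |Gk k x i j - G x i j| := by
        refine setIntegral_congr_ae hT.measurableSet ?_
        filter_upwards [hz] with x hx hxT
        rw [hx hxT, sub_zero]
      have a2 : ∫ x in T0p m, |Gk k x i j - G x i j| ≤
          ∫ x in Om m, |Gk k x i j - G x i j| :=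
        setIntegral_mono_set hsub.abs (ae_of_all _ fun x => abs_nonneg _)
          (LE.le.eventuallyLE T0p_sub)
      have a3 : ENNReal.ofReal (∫ x in Om m, |Gk k x i j - G x i j|) =
          eLpNorm (fun x => Gk k x i j - G x i j) 1 (volume.restrict (Om m)) := by
        rw [eLpNorm_one_eq_lintegral_enorm,
          ← ofReal_integral_norm_eq_lintegral_enorm hsub]
        simp only [Real.norm_eq_abs]
      calc ENNReal.ofReal (∫ x in T0p m, |Gk k x i j|)
          ≤ ENNReal.ofReal (∫ x in Om m, |Gk k x i j - G x i j|) :=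
            ENNReal.ofReal_le_ofReal (a1 ▸ a2)
        _ = eLpNorm (fun x => Gk k x i j - G x i j) 1 (volume.restrict (Om m)) := a3
        _ ≤ _ := eLpNorm_le_eLpNorm_mul_rpow_measure_univ hp1 hsub.aestronglyMeasurable
    have hlim2 : Tendsto (fun k => eLpNorm (fun x => Gk k x i j - G x i j) p
        (volume.restrict (Om m)) * M) atTop (𝓝 0) := by
      have := ENNReal.Tendsto.mul_const hlimij (Or.inr hMtop)
      simpa using this
    have hlim3 : Tendsto (fun k => ENNReal.ofReal (∫ x in T0p m, |Gk k x i j|)) atTop (𝓝 0) :=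
      tendsto_of_tendsto_of_tendsto_of_le_of_le tendsto_const_nhds hlim2
        (fun _ => zero_le) hbound
    have hlim4 := (ENNReal.tendsto_toReal ENNReal.zero_ne_top).comp hlim3
    have : ((fun a : ℝ≥0∞ => a.toReal) ∘ fun k => ENNReal.ofReal (∫ x in T0p m, |Gk k x i j|)) =
        fun k => ∫ x in T0p m, |Gk k x i j| := by
      funext k
      exact ENNReal.toReal_ofReal (integral_nonneg fun x => abs_nonneg _)
    rw [← this]
    simpa using hlim4
  have hsum : Tendsto (fun k => ∑ i : Fin (m + 3), ((∫ x in T0p m, |Gk k x i 0|) +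
      ∫ x in T0p m, |Gk k x i 2|)) atTop (𝓝 (∑ _i : Fin (m + 3), ((0 : ℝ) + 0))) :=
    tendsto_finsetSum _ fun i _ => (hzero i 0 (Or.inl rfl)).add (hzero i 2 (Or.inr rfl))
  have := ge_of_tendsto' hsum hlow
  simp at this
  linarith

end Run7.h313.SC
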